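import Pool.Agent.W2helper19.DG.Growth

/-!
# MP_1c76f0_nt: the digits of the multiple `t_n` of `2 ^ n` with digits 1 and 2

`t` below is `t_n`: it has `n` decimal digits, all equal to 1 or 2, and it is divisible by `2 ^ n`.
`(Nat.digits 10 t).getD k 0` is its digit `d_k` at the position `k` (units: `k = 0`).

* For every `ε < log 2 / log 10` the number of the positions `k ≥ ε n` with `d_k ≠ d_{k+1}` tends to infinity.
* Hence `N_1(n) / log n` and `(n - N_1(n)) / log n` tend to infinity.
-/

set_option autoImplicit false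

open Finset Filter Topology Pool.Agent.W2helper19.DG

namespace Pool.Agent.Results.MP_1c76f0_nt.DigitChanges

theorem result :
    (∀ ε : ℝ, 0 < ε → ε < Real.log 2 / Real.log 10 → ∀ K : ℕ, ∃ N : ℕ, ∀ n : ℕ, N ≤ n → ∀ t : ℕ,
      (Nat.digits 10 t).length = n →
      (∀ d ∈ Nat.digits 10 t, d = 1 ∨ d = 2) →
      2 ^ n ∣ t →
      K ≤ ((Finset.range (n - 1)).filter (fun k : ℕ => ε * n ≤ k ∧
        (Nat.digits 10 t).getD k 0 ≠ (Nat.digits 10 t).getD (k + 1) 0)).card) ∧
    (∀ A : ℝ, ∃ N : ℕ, ∀ n : ℕ, N ≤ n → ∀ t : ℕ,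
      (Nat.digits 10 t).length = n →
      (∀ d ∈ Nat.digits 10 t, d = 1 ∨ d = 2) →
      2 ^ n ∣ t →
      A * Real.log n ≤ (((Nat.digits 10 t).count 1 : ℕ) : ℝ) ∧
        (((Nat.digits 10 t).count 1 : ℕ) : ℝ) ≤ n - A * Real.log n) := by
  have hl10 : 0 < Real.log 10 := Real.log_pos (by norm_num)
  constructor
  · intro ε hε0 hε K
    have hε1 : ε * Real.log 10 < Real.log 2 := by
      rwa [lt_div_iff₀ hl10] at hε
    have hε2 : ε < 1 := by
      refine hε.trans ?_
      rw [div_lt_one hl10]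
      exact Real.log_lt_log (by norm_num) (by norm_num)
    have h1 := window hε1 (fun n => ⌊ε * n⌋₊)
      (tendsto_nat_floor_atTop.comp (tendsto_natCast_atTop_atTop.const_mul_atTop hε0))
      (fun n => Nat.floor_le (by positivity)) K
    obtain ⟨N, hN⟩ := Filter.eventually_atTop.1 h1
    refine ⟨N + 1, fun n hn t hl hd h2 => ?_⟩
    have hn0 : (0 : ℝ) < n := by exact_mod_cast (by omega : 0 < n)
    have hlt : ⌊ε * n⌋₊ < n := by
      rw [Nat.floor_lt (by positivity)]
      nlinarith
    obtain ⟨r, hr⟩ : ∃ r, n = ⌊ε * n⌋₊ + r + 1 := ⟨n - ⌊ε * n⌋₊ - 1, by omega⟩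
    have h3 := hN n (by omega) t r (good_of_digits hl hd h2) hr
    have h4 : K ≤ ((Cw t ⌊ε * n⌋₊ r).erase 0).card := by
      have := Finset.pred_card_le_card_erase (s := Cw t ⌊ε * n⌋₊ r) (a := 0)
      omega
    refine h4.trans (Finset.card_le_card_of_injOn (fun k => ⌊ε * n⌋₊ + k) ?_
      (fun x _ y _ hxy => Nat.add_left_cancel hxy))
    intro k hk
    rw [Finset.mem_coe, Finset.mem_erase, Cw, Finset.mem_filter, Finset.mem_range] at hk
    obtain ⟨hk0, hk1, hk2⟩ := hk
    rw [Finset.mem_coe, Finset.mem_filter, Finset.mem_range]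
    refine ⟨?_, ?_, ?_⟩
    · show ⌊ε * n⌋₊ + k < n - 1
      omega
    · have h5 := Nat.lt_floor_add_one (ε * n)
      have h6 : (1 : ℝ) ≤ k := by exact_mod_cast (by omega : 1 ≤ k)
      push_cast
      linarith
    · rw [dg_eq, dg_eq] at hk2
      exact hk2
  · intro A
    obtain ⟨N, hN⟩ := counts A
    refine ⟨N, fun n hn t hl hd h2 => ?_⟩
    have hg := good_of_digits hl hd h2
    have h1 := hN n hn t hg 1 (Or.inl rfl)
    have h3 := hN n hn t hg 2 (Or.inr rfl)
    have h4 : ((range n).filter (fun k => dg t k = 1)).card +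
        ((range n).filter (fun k => dg t k = 2)).card = n := by
      have e : (range n).filter (fun k => dg t k = 2) = (range n).filter (fun k => ¬ dg t k = 1) := by
        refine Finset.filter_congr (fun k hk => ?_)
        have := hg.1 k (Finset.mem_range.1 hk)
        omega
      rw [e, Finset.card_filter_add_card_filter_not, Finset.card_range]
    have h5 : ((((range n).filter (fun k => dg t k = 1)).card : ℕ) : ℝ) +
        ((((range n).filter (fun k => dg t k = 2)).card : ℕ) : ℝ) = n := by exact_mod_cast h4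
    rw [count_digits hl 1]
    exact ⟨h1, by linarith⟩

end Pool.Agent.Results.MP_1c76f0_nt.DigitChanges
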